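import Pool.Agent.H681.SD.Z1D
import Pool.Agent.H681.GF.SM
import Pool.Graph.R_pool_sql_team_seeded_63374d34.N879.SX.Asm
import Pool.Graph.R_pool_sql_team_seeded_63374d34.N879.SX.Kd
import Pool.Graph.R_pool_sql_team_seeded_63374d34.N879.SX.Tld
import Pool.Graph.R_pool_sql_team_seeded_63374d34.N879.SX.Prd
import Pool.Graph.R_pool_sql_team_seeded_63374d34.N879.SX.Cbe
import Pool.Graph.R_pool_sql_team_seeded_63374d34.N879.SX.Em1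
import Pool.Graph.R_pool_sql_team_seeded_63374d34.N879.SX.Dl
import Pool.Graph.R_pool_sql_team_seeded_63374d34.N879.SX.Vn
import Pool.Graph.R_pool_sql_team_seeded_63374d34.N378.SX.Mai
import Pool.Graph.R_seed8.TH503.GS.MVD
import Pool.Graph.R_seed8.TH767.GS.NS

set_option autoImplicit false

/-!
Project SX (library run 63374d34, N879/SX, N378/SX): all packages put together.
-/

namespace Pool.Agent.H681.SD

open Complex MeasureTheory Set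
open Pool.Agent.TH612.GS Pool.Agent.N879.SX

theorem hZ : S_Z1D :=
  t_Z1D t_TLD (t_KD t_EM1 (t_DL t_VN)) Pool.Agent.H681.GF.t_SM
    (Pool.Agent.TH503.GS.t_SP Pool.Agent.TH928.GS.t_MV)

/-- The product measure on the cube is the restriction of the Lebesgue measure. -/
theorem mP_eq (ι : Type) [Fintype ι] (T : ℝ) :
    mP ι T = volume.restrict (Set.univ.pi fun _ : ι => Icc (0:ℝ) T) := by
  rw [mP, ← Measure.restrict_pi_pi]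
  rfl

theorem to_volume {ι : Type} [Fintype ι] {T B : ℝ} {P : (ι → ℝ) → Prop}
    (h : mP ι T {β | P β} ≤ ENNReal.ofReal B) :
    volume {β : ι → ℝ | (∀ i, 0 ≤ β i ∧ β i ≤ T) ∧ P β} ≤ ENNReal.ofReal B := by
  rw [mP_eq, Measure.restrict_apply' (MeasurableSet.univ_pi fun _ => measurableSet_Icc)] at h
  refine (measure_mono ?_).trans h
  intro β hβ
  refine ⟨hβ.2, ?_⟩
  intro i _
  exact ⟨(hβ.1 i).1, (hβ.1 i).2⟩

theorem main (k : ℕ) (η : ℝ) (hη : 0 < η) :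
    (∀ θ : ℝ, 0 < θ → ∃ δ T₀ : ℝ, 0 < δ ∧ 1 ≤ T₀ ∧ ∀ (T : ℝ) (L : Finset ℝ) (w : ℝ → ℂ) (N : ℕ),
      T₀ ≤ T → OneSep L T → T ^ η ≤ L.card → (∀ t, ‖w t‖ ≤ 1) → T ^ θ ≤ N → (N : ℝ) ≤ T →
      volume {γ : Fin k ⊕ Fin k → ℝ | (∀ i, 0 ≤ γ i ∧ γ i ≤ T) ∧
          T ^ (-δ) * L.card < ‖SF z L w γ - SF (PN N) L w γ‖} ≤
        ENNReal.ofReal (T ^ (2 * k - δ : ℝ))) ∧
    ∃ δ T₀ : ℝ, 0 < δ ∧ 1 ≤ T₀ ∧ ∀ (T : ℝ) (L : Finset ℝ) (w : ℝ → ℂ), T₀ ≤ T →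
      OneSep L T → T ^ η ≤ L.card → (∀ t, ‖w t‖ ≤ 1) →
      (∀ a b : ℕ, 1 ≤ a → 1 ≤ b → (a : ℝ) ≤ T ^ η → (b : ℝ) ≤ T ^ η → a ≠ b →
        ‖∑ t ∈ L, w t * exp (I * t * (Real.log a - Real.log b))‖ ≤ T ^ (-η) * L.card) →
      volume {γ : Fin k ⊕ Fin k → ℝ | (∀ i, 0 ≤ γ i ∧ γ i ≤ T) ∧
          T ^ (-δ) * L.card < ‖SF z L w γ - (∑ t ∈ L, w t) * zr γ‖} ≤
        ENNReal.ofReal (T ^ (2 * k - δ : ℝ)) := by
  constructor
  · intro θ hθ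
    obtain ⟨δ, T₀, hδ, hT₀, h⟩ := t_one hZ t_CBE k η θ hη hθ
    exact ⟨δ, T₀, hδ, hT₀, fun T L w N hT hL hc hw h1 h2 => to_volume (h T L w N hT hL hc hw h1 h2)⟩
  · obtain ⟨δ, T₀, hδ, hT₀, h⟩ := t_two hZ t_CBE t_PRD Pool.Agent.N378.SX.t_MAI
      Pool.Agent.TH767.GS.t_NS k η hη
    exact ⟨δ, T₀, hδ, hT₀, fun T L w hT hL hc hw hW => to_volume (h T L w hT hL hc hw hW)⟩

end Pool.Agent.H681.SD
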