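import Pool.Graph.R_pool_sql_team_seeded_63374d34.N879.SX.Stm
import Pool.Graph.R_seed8.TH612.GS.Z
import Pool.Graph.R_seed8.TH612.GS.Asm3

set_option autoImplicit false

/-!
The products of zeta values against the products of short polynomials, in mean square over the
shifts (the statement `S_Z1D` of the library project SX).
-/

namespace Pool.Agent.H681.SD

open Complex Filter Topology MeasureTheory Set
open Pool.Agent.TH612.CF Pool.Agent.TH612.GS Pool.Agent.N879.SX

noncomputable section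

theorem t_Z1D (hTLD : S_TLD) (hKD : S_KD) (hSM : S_SM) (hSP : S_SP) : S_Z1D := by
  intro k η θ hη hθ
  obtain ⟨c, T1, hc, hT1, h1⟩ := hKD η θ hη hθ
  obtain ⟨C2, T2, hC2, hT2, h2⟩ := hSM
  obtain ⟨C3, T3, hC3, hT3, h3⟩ := hSP
  rcases Nat.eq_zero_or_pos k with hk | hk
  · subst hk
    refine ⟨1, 3, by norm_num, by norm_num, fun T L w N hT hL hcard hw hN hNT => ?_⟩
    simp [SF]
  obtain ⟨Te, hTe⟩ := eventually_atTop.1
    (log_ev (4 ^ (2 * k) * (C2 + C3) ^ (2 * k - 1)) (2 * k - 1) (θ := c / 2) (by positivity))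
  refine ⟨c / 2, max 3 (max (max Te T1) (max T2 T3)), by positivity,
    (by norm_num : (2:ℝ) ≤ 3).trans (le_max_left _ _), fun T L w N hT hL hcard hw hN hNT => ?_⟩
  have hT3' : 3 ≤ T := (le_max_left _ _).trans hT
  have hTT0 : Te ≤ T := (((le_max_left _ _).trans (le_max_left _ _)).trans (le_max_right _ _)).trans hT
  have hTT1 : T1 ≤ T := (((le_max_right _ _).trans (le_max_left _ _)).trans (le_max_right _ _)).trans hT
  have hTT2 : T2 ≤ T := (((le_max_left _ _).trans (le_max_right _ _)).trans (le_max_right _ _)).trans hT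
  have hTT3 : T3 ≤ T := (((le_max_right _ _).trans (le_max_right _ _)).trans (le_max_right _ _)).trans hT
  have hT0 : 0 < T := by linarith
  have hT1' : 1 ≤ T := by linarith
  have hlog : 0 ≤ Real.log T := Real.log_nonneg hT1'
  have hNr : (1:ℝ) ≤ N := (Real.one_le_rpow hT1' hθ.le).trans hN
  have hN1 : 1 ≤ N := by exact_mod_cast hNr
  have hA0 : 0 ≤ T ^ (3 / 4 : ℝ) := by positivity
  have hAT : T ^ (3 / 4 : ℝ) ≤ T := by
    calc T ^ (3 / 4 : ℝ) ≤ T ^ (1:ℝ) := Real.rpow_le_rpow_of_exponent_le hT1' (by norm_num)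
      _ = T := Real.rpow_one T
  have hsub : ∀ f : ℝ → ℂ, Continuous f → ∀ t ∈ L,
      ∫ y in (T ^ (3 / 4 : ℝ))..T, ‖f (t + y)‖ ^ 2 ≤ ∫ u in (0:ℝ)..(2 * T), ‖f u‖ ^ 2 := by
    intro f hf t ht
    refine le_trans ?_ (shift_le hf (hL.1 t ht).1 (hL.1 t ht).2)
    have hcont : Continuous fun y => ‖f (t + y)‖ ^ 2 := by fun_prop
    refine intervalIntegral.integral_mono_interval hA0 hAT le_rfl ?_ (hcont.intervalIntegrable _ _)
    exact Eventually.of_forall fun u => by positivity
  set K : ℝ := T ^ (1 - c) * L.card with hK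
  set V : ℝ := (C2 + C3) * T * Real.log T with hV
  have hK0 : 0 ≤ K := by positivity
  have hV0 : 0 ≤ V := by positivity
  have key := hTLD (Fin k ⊕ Fin k) (fz k z) (fz k (PN N)) w L (T ^ (3 / 4 : ℝ)) T K V hAT hK0 hV0
    (fun i => fz_cont z_cont i) (fun i => fz_cont (PN_cont N) i) hw ?_ ?_ ?_
  · have e1 : ∀ γ : Fin k ⊕ Fin k → ℝ,
        (∑ t ∈ L, w t * (∏ i, fz k z i (t + γ i) - ∏ i, fz k (PN N) i (t + γ i))) =
        SF z L w γ - SF (PN N) L w γ := by
      intro γ
      unfold SF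
      rw [← Finset.sum_sub_distrib]
      refine Finset.sum_congr rfl fun t _ => ?_
      rw [fz_prod, fz_prod]
      ring
    simp only [e1] at key
    refine key.trans (ENNReal.ofReal_le_ofReal ?_)
    have hcc : Fintype.card (Fin k ⊕ Fin k) = 2 * k := by
      rw [Fintype.card_sum, Fintype.card_fin]; ring
    have hlT := hTe T hTT0
    have e4 : T ^ (2 * k - c / 2 : ℝ) = T ^ (1 - c) * T ^ (2 * k - 1) * T ^ (c / 2) := by
      rw [← Real.rpow_natCast T (2 * k - 1), ← Real.rpow_add hT0, ← Real.rpow_add hT0]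
      congr 1
      rw [Nat.cast_sub (by omega)]
      push_cast
      ring
    rw [hcc, hV, hK, mul_pow, mul_pow, e4]
    calc (4:ℝ) ^ (2 * k) * (T ^ (1 - c) * L.card) *
          ((C2 + C3) ^ (2 * k - 1) * T ^ (2 * k - 1) * Real.log T ^ (2 * k - 1)) * L.card =
        T ^ (1 - c) * T ^ (2 * k - 1) *
          ((4:ℝ) ^ (2 * k) * (C2 + C3) ^ (2 * k - 1) * Real.log T ^ (2 * k - 1)) * (L.card : ℝ) ^ 2 := by
          ring
      _ ≤ T ^ (1 - c) * T ^ (2 * k - 1) * T ^ (c / 2) * (L.card : ℝ) ^ 2 := by gcongr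
  · intro i R
    cases i with
    | inl j =>
      have := h1 T L N R hTT1 hL hcard hN hNT
      simpa [fz] using this
    | inr j =>
      have := h1 T L N (fun t => (starRingEnd ℂ) (R t)) hTT1 hL hcard hN hNT
      simp only [Complex.norm_conj] at this
      refine le_trans (le_of_eq ?_) this
      refine intervalIntegral.integral_congr fun y _ => ?_
      have e3 : (∑ t ∈ L, (fz k z (Sum.inr j) (t + y) - fz k (PN N) (Sum.inr j) (t + y)) * R t) =
          (starRingEnd ℂ) (∑ t ∈ L, (z (t + y) - PN N (t + y)) * (starRingEnd ℂ) (R t)) := by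
        rw [map_sum]
        refine Finset.sum_congr rfl fun t _ => ?_
        simp only [fz, Sum.elim_inr, map_mul, map_sub, Complex.conj_conj]
      change ‖_‖ ^ 2 = ‖_‖ ^ 2
      rw [e3, Complex.norm_conj]
  · intro i t ht
    simp only [fz_norm]
    refine (hsub z z_cont t ht).trans ((h2 T hTT2).trans ?_)
    rw [hV]
    gcongr
    linarith
  · intro i t ht
    simp only [fz_norm]
    refine (hsub (PN N) (PN_cont N) t ht).trans ((h3 T N hTT3 hN1 hNT).trans ?_)
    rw [hV]
    gcongr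
    linarith

end

end Pool.Agent.H681.SD
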